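import Mathlib
import Pool.Agent.R292.AvgShadow

/-!
# Factors of systems with the asymptotic average shadowing property (Q2)

Every factor of a compact metric system with the asymptotic average shadowing property has the
asymptotic average shadowing property.
-/

set_option autoImplicit false

open Pool.Agent.R292.AvgShadow

universe u v

/-- **Q2, positive answer.** If `(X, f)` and `(Y, g)` are compact metric dynamical systems,
`π : X → Y` is a continuous surjection with `π ∘ f = g ∘ π`, and `(X, f)` has the asymptotic
average shadowing property, then so does `(Y, g)`. -/
theorem Pool.Agent.Results.MP_bdee7b_an.AsympAverageShadowingFactor.result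
    (X : Type u) (Y : Type v) [MetricSpace X] [CompactSpace X] [MetricSpace Y] [CompactSpace Y]
    (f : X → X) (g : Y → Y) (_hf : Continuous f) (hg : Continuous g)
    (π : X → Y) (hπ : Continuous π) (hsurj : Function.Surjective π) (hcomm : π ∘ f = g ∘ π)
    (h : AsymptoticAverageShadowing f) : AsymptoticAverageShadowing g :=
  factor_aasp f g hg π hπ hsurj (fun x => congrFun hcomm x) h
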